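import Pool.Agent.Y601.SSE.Games

set_option autoImplicit false

/-!
# `d`-to-1 label cover is not hard under constant-depth reductions

The definitions used in the statement are `numEdges`, `numSat`, `game` in
`Pool/Agent/Y601/SSE/GameDefs.lean` and circuits (`Circuit`, `nodeVal`, `nodeDepth`) in
`Pool/Agent/H568R2/Defs.lean`.

A many-one reduction from parity to `d`-to-1 label cover with value one or less than `ε` which is
computed by circuits of constant depth needs exponential size, for all `d`, `R` and `ε < 1`. So the
problem is not hard for `NP`, or even for parity, under (nonuniform) `AC0` many-one reductions. The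
first part is uniform in `d`, `R` and the gap: a reduction with `S` gates cannot create a
gap `1 - ε` larger than `b (log S) ^ O(h)` divided by `N`. The second part says that this is sharp
up to the logarithms: for all `d`, parity of `N` bits reduces without any gates to instances with
`2 N` edges, `R = 2` and values `1` and `1 - 1 / (2 N)`.

Idea of the proof. A yes instance and a no instance differ in a fraction of the edges proportional
to the gap. Under a random restriction which leaves many variables free all the bits of the edges
become decision trees of small depth `s`, and so at every input at most `b s` of the free variables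
are sensitive for a given edge. Count the triples of an input, a free variable and an edge which
changes when the variable is flipped. The number of edges may depend on the input.
-/

namespace Pool.Agent.Results.MP_62e2f2_lc.ConstantDepthReductions

open Finset DomAC0 Pool.Agent.Y601.SSE.Games
open scoped Classical

/-- (1) For every depth `h` there is `X₀` with the following property. Let `C` be a circuit with `N`
inputs, with NOT gates and AND and OR gates of unbounded fan-in, and let `out e 1, ..., out e b` be
nodes of depth at most `h` whose values on the input `x` are decoded to entry `e` of a list, which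
may be empty or an edge of a `d`-to-1 label cover instance with the label sets `Fin (d * R)` on the
side `W` and `Fin R` on the side `V`. Let `0 ≤ ε < 1`. If the instance has at least one edge, has
value one whenever `x` has an even number of ones, and has value less than `ε` whenever `x` has an
odd number of ones, and if `X = (1 - ε) N / b ≥ X₀`, then `C` has at least
`2 ^ (X ^ (1 / (h + 1)) / 100)` gates.

(2) For all `d ≥ 1` and every number `N = n + 1` of inputs there is a circuit without gates which in
this way computes `d`-to-1 label cover instances with `R = 2` and `2 N` edges all of which can be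
satisfied if and only if `x` has an even number of ones. -/
theorem result :
    (∀ h : ℕ, ∃ X₀ : ℝ, ∀ (N m b d R : ℕ) (C : Circuit (Fin N)) (W V : Type)
      (out : Fin m → Fin b → Fin N ⊕ Fin C.size)
      (dec : Fin m → (Fin b → Bool) → Option (W × V × (Fin (d * R) → Fin R))) (ε : ℝ),
      (∀ e j, C.nodeDepth (out e j) ≤ h) → 1 ≤ b →
      (∀ x e w v π, game C out dec x e = some (w, v, π) →
        ∀ a, (univ.filter fun z => π z = a).card ≤ d) →
      (∀ x, 1 ≤ numEdges (game C out dec x)) → 0 ≤ ε → ε < 1 →
      (∀ x, ¬ Odd (univ.filter fun i => x i = true).card →
        ∃ M L, numSat (game C out dec x) M L = numEdges (game C out dec x)) →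
      (∀ x, Odd (univ.filter fun i => x i = true).card →
        ∀ M L, (numSat (game C out dec x) M L : ℝ) < ε * numEdges (game C out dec x)) →
      X₀ ≤ (1 - ε) * (N / b) →
      (2 : ℝ) ^ (((1 - ε) * (N / b)) ^ (1 / (h + 1 : ℝ)) / 100) ≤ C.size) ∧
    (∀ d n : ℕ, 1 ≤ d → ∃ (C : Circuit (Fin (n + 1)))
      (out : Fin ((n + 1) * 2) → Fin 1 → Fin (n + 1) ⊕ Fin C.size)
      (dec : Fin ((n + 1) * 2) → (Fin 1 → Bool) →
        Option (Fin (n + 1) × Fin (n + 1) × (Fin (d * 2) → Fin 2))),
      C.size = 0 ∧
      (∀ x e w v π, game C out dec x e = some (w, v, π) →
        ∀ a, (univ.filter fun z => π z = a).card ≤ d) ∧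
      (∀ x, numEdges (game C out dec x) = (n + 1) * 2) ∧
      (∀ x, ¬ Odd (univ.filter fun i => x i = true).card →
        ∃ M L, numSat (game C out dec x) M L = (n + 1) * 2) ∧
      (∀ x, Odd (univ.filter fun i => x i = true).card →
        ∀ M L, numSat (game C out dec x) M L < (n + 1) * 2)) := by
  constructor
  · intro h
    obtain ⟨X₀, hX⟩ := games_main h
    refine ⟨X₀, ?_⟩
    intro N m b d R C W V out dec ε h1 h2 _ h3 h5 h6 h7 h8 h9
    refine hX N m b C W V (Fin (d * R)) (Fin R) out dec 1 ε h1 h2 h3 h5 h6 le_rfl
      (fun x hx => ?_) (fun x hx M L => (h8 x hx M L).le) h9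
    obtain ⟨M, L, hML⟩ := h7 x hx
    exact ⟨M, L, by rw [hML, one_mul]⟩
  · intro d n hd
    obtain ⟨C, out, dec, h1, _, h3, h4, h5, h6⟩ := cycle_game n (lastBit d)
      (lastBit_surjective hd)
    refine ⟨C, out, dec, h1, ?_, h4, h5, h6⟩
    intro x e u v π h a
    obtain ⟨a', ha⟩ := h3 e _ u v π h
    exact card_fiber_lastBit ha a

end Pool.Agent.Results.MP_62e2f2_lc.ConstantDepthReductions
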