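import Pool.Agent.Y572.SA.TwoAll

/-!
d-to-1 label cover, every completeness `c` (perfect completeness `c = 1` included) and every
soundness `s`: the level of the plain Sherali-Adams hierarchy (a linear program, no semidefinite
constraint) with exponent `O(x log (2/x))`, `x = (1 + log (d/c)) / log (1/s)`, tells value at least
`c` from value less than `s / 2 ^ 21`.
-/

namespace Pool.Agent.Results.MP_62e2f2_lc.LinearProgramLevels

open Finset

/-- `f` depends only on the labels of the vertices in `S` and in `T`. -/
def DependsOn {V W A B : Type} (S : Finset W) (T : Finset V) (f : (W → A) × (V → B) → ℝ) : Prop :=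
  ∀ z z', (∀ w ∈ S, z.1 w = z'.1 w) → (∀ v ∈ T, z.2 v = z'.2 v) → f z = f z'

/-- `L` is a solution of level `k` of the Sherali-Adams hierarchy: a normalised linear functional
on the functions of a labeling of both sides which is nonnegative on all nonnegative functions of
at most `k` labels. Only the values of `L` on functions of at most `k` labels matter. There is no
semidefinite constraint. -/
structure IsSheraliAdams {V W A B : Type} (k : ℕ) (L : ((W → A) × (V → B) → ℝ) →ₗ[ℝ] ℝ) :
    Prop where
  one : L (fun _ => 1) = 1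
  nonneg : ∀ (S : Finset W) (T : Finset V), S.card + T.card ≤ k →
    ∀ f : (W → A) × (V → B) → ℝ, DependsOn S T f → (∀ z, 0 ≤ f z) → 0 ≤ L f

/-- Let a label cover instance have finitely many edges `e = (v e, w e)`, finite label sets `B`
(for `V`) and `A` (for `W`) and maps `π e : A → B` all of whose fibres have at most `d ≥ 1`
elements. Let `0 < c ≤ 1`, `0 < s`, `exp 1 * d * s ≤ c` and
`x = (1 + log (d/c)) / log (1/s)`. If some level
`k ≥ 16 * (1 + log |W|) * |W| ^ (512 * x * log (2/x))` of the Sherali-Adams hierarchy has a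
solution of value at least `c`, then some labeling satisfies at least a fraction `s / 2 ^ 21` of
the edges. -/
theorem result (V W A B E : Type) [Fintype V] [Fintype W] [Fintype A] [Fintype B]
    [DecidableEq B] [Fintype E] (v : E → V) (w : E → W) (π : E → A → B) (d : ℕ) (hd : 0 < d)
    (hfib : ∀ e b, (univ.filter fun a => π e a = b).card ≤ d) (c s x : ℝ) (k : ℕ)
    (L : ((W → A) × (V → B) → ℝ) →ₗ[ℝ] ℝ) (hc : 0 < c) (hc1 : c ≤ 1) (hs : 0 < s)
    (hsc : Real.exp 1 * d * s ≤ c) (hx : x = (1 + Real.log (d / c)) / Real.log (1 / s))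
    (hk : 16 * ((1 + Real.log (Fintype.card W)) *
      (Fintype.card W : ℝ) ^ (512 * (x * Real.log (2 / x)))) ≤ k)
    (hL : IsSheraliAdams k L)
    (hval : c * (Fintype.card E : ℝ)
      ≤ ∑ e, L (fun z => if π e (z.1 (w e)) = z.2 (v e) then 1 else 0)) :
    ∃ (M : W → A) (N : V → B), s / 2 ^ 21 * (Fintype.card E : ℝ)
      ≤ ((univ.filter fun e => π e (M (w e)) = N (v e)).card : ℝ) :=
  Pool.Agent.Y572.SA.main_two v w π d hd hfib c s x k L hc hc1 hs hsc hx hk
    ⟨hL.one, hL.nonneg⟩ hval

end Pool.Agent.Results.MP_62e2f2_lc.LinearProgramLevels
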