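import Pool.Agent.Y643.PG.Law

/-!
# The `d`-to-1 conjecture for pure dynamic programs: the sharp threshold `1 / R`

A (max,+) program (a pure dynamic program, a tropical circuit) computes functions of the weights of
constraints, one after the other; each is an input, a real constant, or the maximum or the sum of two
functions computed before. We consider `d`-to-1 games on `n + n` vertices: the labels are in
`{1, ..., d R}` on one side and in `{1, ..., R}` on the other side, a constraint is given by one
vertex `s` of the first side, one vertex `t` of the second side and a map `π` between the label sets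
each value of which has at most `d` preimages. The inputs are the weights of all these constraints. We
consider programs whose value never exceeds the largest total weight of the constraints which a
labeling can satisfy.

* There is a program with `O (n ^ 2)` instructions whose value is at least `1 / R` times the optimum,
  for all nonnegative weights.
* The optimum is computed by a program with `2 ^ (O (n + 1))` instructions.
* If the value is at least `(1 / R + ε) n ^ 2` for each satisfiable game on the complete bipartite
  graph (one constraint of weight one for each pair `s`, `t`, all of them satisfied by one labeling),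
  then the program has at least `2 ^ (γ n) - 1` instructions, where `γ > 0` depends on `d`, `R` and
  `ε` only. This holds for randomised programs with success probability `2 ^ (- γ n)` too.

So for every `δ > 0` and every `R > 1 / δ` pure dynamic programs which certify a value of at least
`δ n ^ 2` for all `d`-to-1 games which can be satisfied completely have exponential size: the
`d`-to-1 conjecture, with perfect completeness, holds for pure dynamic programs, and the threshold is
that of random labels.

Proof. The lower bound uses the method of helper837 (`Pool.Agent.TH837.MX`) for MAX-3SAT: a small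
program reaches a large value only on few of the planted games. Here the planted games use the shifts
`π + c` of one fixed map `π`, so that each labeling gives exactly one constraint for each pair, and a
constraint is planted with conditional probability `1 / R` if the label of one of its vertices is
random.
-/

set_option autoImplicit false

namespace Pool.Agent.Results.MP_62e2f2_lc.PureDPThreshold

open Pool.Agent.TH837.MX (Computes)
open Pool.Agent.Y643.PG (Con Labeling val Approx)

/-- The threshold for the approximation of `d`-to-1 games by (max,+) programs is `1 / R`, even for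
satisfiable games. -/
theorem result (d R : ℕ) (hd : 1 ≤ d) (hR : 1 ≤ R) :
    (∃ c : ℕ, ∀ n : ℕ, ∃ f : (Con n (fun k => k ≤ d) (Fin (d * R)) (Fin R) → ℝ) → ℝ,
      Computes f (c * n ^ 2 + c) ∧ ∀ w, (∀ e, 0 ≤ w e) →
        (∃ z : Labeling n (Fin (d * R)) (Fin R), f w ≤ val z w) ∧
          ∀ z : Labeling n (Fin (d * R)) (Fin R), 1 / R * val z w ≤ f w) ∧
    (∃ c : ℕ, ∀ n : ℕ, ∃ f : (Con n (fun k => k ≤ d) (Fin (d * R)) (Fin R) → ℝ) → ℝ,
      Computes f (2 ^ (c * (n + 1))) ∧ ∀ w, (∀ e, 0 ≤ w e) →
        (∃ z : Labeling n (Fin (d * R)) (Fin R), f w ≤ val z w) ∧
          ∀ z : Labeling n (Fin (d * R)) (Fin R), val z w ≤ f w) ∧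
    (∀ ε : ℝ, 0 < ε → ε ≤ 1 → ∃ γ : ℝ, 0 < γ ∧ ∀ (n : ℕ) (Ω : Type) [Fintype Ω] [Nonempty Ω]
      (f : Ω → (Con n (fun k => k ≤ d) (Fin (d * R)) (Fin R) → ℝ) → ℝ),
      Approx (1 / R + ε) (2 ^ (-(γ * n))) f →
      ∀ s : ℕ, (∀ r, Computes (f r) s) → (2 : ℝ) ^ (γ * n) ≤ s + 1) := by
  have : NeZero R := ⟨by omega⟩
  have : NeZero (d * R) := ⟨by positivity⟩
  have hdR : ((d : ℝ) / Fintype.card (Fin (d * R))) = 1 / R := by
    have h1 : (d : ℝ) ≠ 0 := by positivity
    have h2 : (R : ℝ) ≠ 0 := by positivity
    rw [Fintype.card_fin]
    push_cast
    field_simp
  refine ⟨?_, Pool.Agent.Y643.PG.brute_law, fun ε hε hε1 => ?_⟩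
  · have h := Pool.Agent.Y643.PG.upper_law (p := fun k => k ≤ d) (β := Fin (d * R)) (α := Fin R)
      (d := d) (fun π x => Or.inr (Pool.Agent.Y643.PG.fib_eq π x))
    rw [hdR] at h
    exact h
  · obtain ⟨φ⟩ := Pool.Agent.Y643.PG.fam_nonempty d R
    have h := Pool.Agent.Y643.PG.lower_law (p := fun k => k ≤ d) (β := Fin (d * R))
      (α := Fin R) (d := d) φ (fun x => φ.2 x) (by
        rw [Fintype.card_fin]; exact Nat.le_mul_of_pos_right d hR) (by
        rw [Fintype.card_fin]; positivity) (by rw [Fintype.card_fin]; exact hR) (by
        rw [Fintype.card_fin, Fintype.card_fin]) hε hε1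
    rw [hdR] at h
    exact h

end Pool.Agent.Results.MP_62e2f2_lc.PureDPThreshold
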